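import Mathlib

set_option autoImplicit false

open Finset

namespace Pool.Agent.Results.MP_27067c_nt.ExponentialDifferences

/-- the solutions with `s` unknowns: the sets `X = {x₁ < ⋯ < x_s}` of `s` integers greater than `1`
with `∑ 1/x_i + 1/(x₁ ⋯ x_s) = 1` -/
def Sol (s : ℕ) : Set (Finset ℕ) :=
  {X | X.card = s ∧ (∀ x ∈ X, 1 < x) ∧ ∑ x ∈ X, (1 : ℚ) / x + 1 / ∏ x ∈ X, (x : ℚ) = 1}

/-- the number of solutions with `s` unknowns -/
noncomputable def Omega (s : ℕ) : ℕ := (Sol s).ncard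

/-- the product of the elements -/
def P (X : Finset ℕ) : ℕ := ∏ x ∈ X, x

theorem P_pos {X : Finset ℕ} (h : ∀ x ∈ X, 1 < x) : 0 < P X :=
  Finset.prod_pos (fun x hx => by have := h x hx; omega)

theorem le_P {X : Finset ℕ} (h : ∀ x ∈ X, 1 < x) {x : ℕ} (hx : x ∈ X) : x ≤ P X :=
  Nat.le_of_dvd (P_pos h) (Finset.dvd_prod_of_mem _ hx)

theorem P_insert {X : Finset ℕ} {y : ℕ} (hy : y ∉ X) : P (insert y X) = y * P X :=
  Finset.prod_insert hy

theorem castP (X : Finset ℕ) : ∏ x ∈ X, (x : ℚ) = (P X : ℚ) := by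
  unfold P; push_cast; rfl

theorem notMem {X : Finset ℕ} {y : ℕ} (h : ∀ x ∈ X, 1 < x) (hy : P X < y) : y ∉ X :=
  fun hm => absurd (le_P h hm) (by omega)

/-- the one step extension -/
def e1 (X : Finset ℕ) : Finset ℕ := insert (P X + 1) X

theorem P_e1 {X : Finset ℕ} (h : ∀ x ∈ X, 1 < x) : P (e1 X) = (P X + 1) * P X :=
  P_insert (notMem h (by omega))

theorem gt_e1 {X : Finset ℕ} (h : ∀ x ∈ X, 1 < x) : ∀ x ∈ e1 X, 1 < x := by
  intro x hx
  rcases Finset.mem_insert.1 hx with rfl | hx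
  · have := P_pos h; omega
  · exact h x hx

theorem sum_e {X : Finset ℕ} (s : ℕ) (hX : X ∈ Sol s) :
    ∑ x ∈ X, (1 : ℚ) / x = 1 - 1 / (P X : ℚ) := by
  have h := hX.2.2
  rw [castP] at h
  linarith

theorem e1_mem {s : ℕ} {X : Finset ℕ} (hX : X ∈ Sol s) : e1 X ∈ Sol (s + 1) := by
  have hn : P X + 1 ∉ X := notMem hX.2.1 (by omega)
  have h0 : (0 : ℚ) < P X := by exact_mod_cast P_pos hX.2.1
  refine ⟨?_, gt_e1 hX.2.1, ?_⟩
  · rw [e1, Finset.card_insert_of_notMem hn, hX.1]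
  · rw [castP, P_e1 hX.2.1, e1, Finset.sum_insert hn, sum_e s hX]
    push_cast
    field_simp
    ring

theorem e1_inj {X Y : Finset ℕ} (hX : ∀ x ∈ X, 1 < x) (hY : ∀ x ∈ Y, 1 < x)
    (h : e1 X = e1 Y) : X = Y := by
  have h1 := P_e1 hX
  have h2 := P_e1 hY
  rw [h, h2] at h1
  have h3 : P X = P Y := by
    rcases lt_trichotomy (P X) (P Y) with h4 | h4 | h4
    · nlinarith
    · exact h4
    · nlinarith
  have h5 : (e1 X).erase (P X + 1) = X := Finset.erase_insert (notMem hX (by omega))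
  have h6 : (e1 Y).erase (P Y + 1) = Y := Finset.erase_insert (notMem hY (by omega))
  rw [← h5, h, h3, h6]

theorem not_e1 {Z : Finset ℕ} {m : ℕ} (hm : m ∈ Z) (hmax : ∀ z ∈ Z, z ≤ m)
    (hP : P Z ≠ m * (m - 1)) {Y : Finset ℕ} (hY : ∀ x ∈ Y, 1 < x) : e1 Y ≠ Z := by
  intro h
  have h1 : P Y + 1 ≤ m := hmax _ (by rw [← h]; exact Finset.mem_insert_self _ _)
  have h2 : m ≤ P Y + 1 := by
    rw [← h] at hm
    rcases Finset.mem_insert.1 hm with h3 | h3
    · omega
    · have := le_P hY h3; omega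
  have h3 : m = P Y + 1 := le_antisymm h2 h1
  apply hP
  rw [← h, P_e1 hY, h3]
  simp

/-- finiteness -/
theorem fin_aux (n : ℕ) : ∀ (c : ℕ) (r : ℚ), 0 < c →
    {X : Finset ℕ | X.card = n ∧ (∀ x ∈ X, 0 < x) ∧
      ∑ x ∈ X, (1 : ℚ) / x + 1 / (c * ∏ x ∈ X, (x : ℚ)) = r}.Finite := by
  induction n with
  | zero =>
    intro c r hc
    refine (Set.finite_singleton (∅ : Finset ℕ)).subset ?_
    rintro X ⟨h, -⟩
    exact Finset.card_eq_zero.1 h
  | succ n ih =>
    intro c r hc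
    obtain ⟨N, hN⟩ := exists_nat_gt (((n : ℚ) + 2) / r)
    refine ((Finset.range (N + 1)).finite_toSet.biUnion (t := fun m : ℕ =>
      (fun Y : Finset ℕ => insert m Y) '' (if h : 0 < m then
        {X : Finset ℕ | X.card = n ∧ (∀ x ∈ X, 0 < x) ∧
          ∑ x ∈ X, (1 : ℚ) / x + 1 / ((c * m : ℕ) * ∏ x ∈ X, (x : ℚ)) = r - 1 / m} else ∅))
      ?_).subset ?_
    · intro m _
      apply Set.Finite.image
      split_ifs with h
      · exact ih (c * m) (r - 1 / m) (Nat.mul_pos hc h)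
      · exact Set.finite_empty
    · rintro X ⟨h1, h2, h3⟩
      have hne : X.Nonempty := by
        rw [← Finset.card_pos]; omega
      set m := X.min' hne with hm
      have hmX : m ∈ X := Finset.min'_mem _ _
      have hm0 : 0 < m := h2 m hmX
      have hmq : (0 : ℚ) < m := by exact_mod_cast hm0
      have hle : ∀ x ∈ X, (1 : ℚ) / x ≤ 1 / m := by
        intro x hx
        apply one_div_le_one_div_of_le hmq
        exact_mod_cast Finset.min'_le _ _ hx
      have hprod : (m : ℚ) ≤ c * ∏ x ∈ X, (x : ℚ) := by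
        have h4 : m ≤ c * ∏ x ∈ X, x := by
          have h5 : m ≤ ∏ x ∈ X, x := Nat.le_of_dvd (Finset.prod_pos h2) (Finset.dvd_prod_of_mem _ hmX)
          nlinarith
        have : ((m : ℕ) : ℚ) ≤ ((c * ∏ x ∈ X, x : ℕ) : ℚ) := by exact_mod_cast h4
        simpa using this
      have hs : ∑ x ∈ X, (1 : ℚ) / x ≤ (n + 1 : ℕ) * (1 / (m : ℚ)) := by
        have := Finset.sum_le_card_nsmul X (fun x : ℕ => (1 : ℚ) / x) _ hle
        rw [h1] at this
        simpa using this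
      have hl : 1 / (c * ∏ x ∈ X, (x : ℚ)) ≤ 1 / (m : ℚ) := one_div_le_one_div_of_le hmq hprod
      have hr : r ≤ (n + 2) / m := by
        rw [← h3]
        have : ((n : ℚ) + 2) / m = (n + 1 : ℕ) * (1 / (m : ℚ)) + 1 / m := by
          push_cast; ring
        rw [this]; linarith
      have hr0 : 0 < r := by
        rw [← h3]
        have h4 : 0 < 1 / (c * ∏ x ∈ X, (x : ℚ)) := by
          apply one_div_pos.2
          exact lt_of_lt_of_le hmq hprod
        have h5 : 0 ≤ ∑ x ∈ X, (1 : ℚ) / x := Finset.sum_nonneg (fun x _ => by positivity)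
        linarith
      have hmN : m < N + 1 := by
        have h4 : (m : ℚ) ≤ (n + 2) / r := by
          rw [le_div_iff₀ hr0]
          rw [le_div_iff₀ hmq] at hr
          linarith
        have h5 : (m : ℚ) < N := lt_of_le_of_lt h4 hN
        have : m < N := by exact_mod_cast h5
        omega
      simp only [Set.mem_iUnion]
      refine ⟨m, by simpa using hmN, X.erase m, ?_, Finset.insert_erase hmX⟩
      rw [dif_pos hm0]
      refine ⟨by rw [Finset.card_erase_of_mem hmX, h1]; rfl, fun x hx => h2 x (Finset.mem_of_mem_erase hx), ?_⟩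
      have h6 : ∑ x ∈ X, (1 : ℚ) / x = 1 / m + ∑ x ∈ X.erase m, (1 : ℚ) / x :=
        (Finset.add_sum_erase X (fun x : ℕ => (1 : ℚ) / x) hmX).symm
      have h7 : ∏ x ∈ X, (x : ℚ) = m * ∏ x ∈ X.erase m, (x : ℚ) :=
        (Finset.mul_prod_erase X (fun x : ℕ => (x : ℚ)) hmX).symm
      rw [h6, h7] at h3
      push_cast
      rw [show ((c : ℚ) * m * ∏ x ∈ X.erase m, (x : ℚ)) = c * (m * ∏ x ∈ X.erase m, (x : ℚ)) by ring]
      linarith

theorem fin_Sol (s : ℕ) : (Sol s).Finite := by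
  refine (fin_aux s 1 1 one_pos).subset ?_
  rintro X ⟨h1, h2, h3⟩
  refine ⟨h1, fun x hx => by have := h2 x hx; omega, ?_⟩
  simpa using h3

/-- the solutions whose product is `2` modulo `5` -/
def N (s : ℕ) : Set (Finset ℕ) := {X | X ∈ Sol s ∧ P X % 5 = 2}

theorem fin_N (s : ℕ) : (N s).Finite := (fin_Sol s).subset (fun _ h => h.1)

/-- the two step extension by the factorisation `P² + 1 = 5 · b` -/
def e2 (X : Finset ℕ) : Finset ℕ := insert (P X + (P X ^ 2 + 1) / 5) (insert (P X + 5) X)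

theorem five_dvd {p : ℕ} (h : p % 5 = 2) : 5 * ((p ^ 2 + 1) / 5) = p ^ 2 + 1 := by
  apply Nat.mul_div_cancel'
  obtain ⟨k, rfl⟩ : ∃ k, p = 5 * k + 2 := ⟨p / 5, by omega⟩
  exact ⟨5 * k ^ 2 + 4 * k + 1, by ring⟩

theorem P_ge {s : ℕ} (hs : 2 ≤ s) {X : Finset ℕ} (hX : X ∈ N s) : 7 ≤ P X := by
  have h1 : 2 ^ X.card ≤ P X := Finset.pow_card_le_prod _ _ _ (fun x hx => hX.1.2.1 x hx)
  rw [hX.1.1] at h1
  have h2 : 2 ^ 2 ≤ 2 ^ s := Nat.pow_le_pow_right (by norm_num) hs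
  have h3 := hX.2
  omega

theorem e2_facts {s : ℕ} (hs : 2 ≤ s) {X : Finset ℕ} (hX : X ∈ N s) :
    P X + 5 ∉ X ∧ P X + (P X ^ 2 + 1) / 5 ∉ insert (P X + 5) X ∧
    P (e2 X) = (P X + (P X ^ 2 + 1) / 5) * ((P X + 5) * P X) ∧
    (∀ z ∈ e2 X, z ≤ P X + (P X ^ 2 + 1) / 5) ∧ e2 X ∈ Sol (s + 2) := by
  have h7 := P_ge hs hX
  have hb := five_dvd hX.2
  have hb5 : 5 < (P X ^ 2 + 1) / 5 := by nlinarith
  have hn1 : P X + 5 ∉ X := notMem hX.1.2.1 (by omega)
  have hn2 : P X + (P X ^ 2 + 1) / 5 ∉ insert (P X + 5) X := by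
    intro h
    rcases Finset.mem_insert.1 h with h | h
    · omega
    · have := le_P hX.1.2.1 h; omega
  have hP : P (e2 X) = (P X + (P X ^ 2 + 1) / 5) * ((P X + 5) * P X) := by
    rw [e2, P_insert hn2, P_insert hn1]
  refine ⟨hn1, hn2, hP, ?_, ?_, ?_, ?_⟩
  · intro z hz
    rcases Finset.mem_insert.1 hz with h | h
    · omega
    · rcases Finset.mem_insert.1 h with h | h
      · omega
      · have := le_P hX.1.2.1 h; omega
  · rw [e2, Finset.card_insert_of_notMem hn2, Finset.card_insert_of_notMem hn1, hX.1.1]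
  · intro z hz
    rcases Finset.mem_insert.1 hz with h | h
    · omega
    · rcases Finset.mem_insert.1 h with h | h
      · omega
      · exact hX.1.2.1 z h
  · rw [castP, hP, e2, Finset.sum_insert hn2, Finset.sum_insert hn1, sum_e s hX.1]
    set b := (P X ^ 2 + 1) / 5 with hbdef
    have hbq : (5 : ℚ) * b = (P X : ℚ) ^ 2 + 1 := by exact_mod_cast hb
    have h0 : (0 : ℚ) < P X := by exact_mod_cast P_pos hX.1.2.1
    have h1 : (0 : ℚ) ≤ b := by positivity
    push_cast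
    field_simp
    have : (b : ℚ) = ((P X : ℚ) ^ 2 + 1) / 5 := by linarith
    rw [this]
    ring

theorem N_sub (s : ℕ) (hs : 2 ≤ s) : Omega (s + 1) + (N s).ncard ≤ Omega (s + 2) := by
  have h1 : (e1 '' Sol (s + 1)).ncard = Omega (s + 1) :=
    Set.InjOn.ncard_image (fun X hX Y hY h => e1_inj hX.2.1 hY.2.1 h)
  have h2 : (e2 '' N s).ncard = (N s).ncard := by
    apply Set.InjOn.ncard_image
    intro X hX Y hY h
    obtain ⟨a1, a2, a3, -, -⟩ := e2_facts hs hX
    obtain ⟨b1, b2, b3, -, -⟩ := e2_facts hs hY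
    have hmono : StrictMono (fun m : ℕ => (m + (m ^ 2 + 1) / 5) * ((m + 5) * m)) := by
      intro a b hab
      have h4 : (a ^ 2 + 1) / 5 ≤ (b ^ 2 + 1) / 5 := by gcongr
      exact Nat.mul_lt_mul'' (by omega) (Nat.mul_lt_mul'' (by omega) hab)
    have h3 : P X = P Y := by
      apply hmono.injective
      show (P X + (P X ^ 2 + 1) / 5) * ((P X + 5) * P X) = (P Y + (P Y ^ 2 + 1) / 5) * ((P Y + 5) * P Y)
      rw [← a3, ← b3, h]
    have h5 : ((e2 X).erase (P X + (P X ^ 2 + 1) / 5)).erase (P X + 5) = X := by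
      rw [e2, Finset.erase_insert a2, Finset.erase_insert a1]
    have h6 : ((e2 Y).erase (P Y + (P Y ^ 2 + 1) / 5)).erase (P Y + 5) = Y := by
      rw [e2, Finset.erase_insert b2, Finset.erase_insert b1]
    rw [← h5, h, h3, h6]
  have hdis : Disjoint (e1 '' Sol (s + 1)) (e2 '' N s) := by
    rw [Set.disjoint_left]
    rintro Z ⟨Y, hY, rfl⟩ ⟨X, hX, hXY⟩
    obtain ⟨a1, a2, a3, a4, -⟩ := e2_facts hs hX
    refine not_e1 (m := P X + (P X ^ 2 + 1) / 5) (Finset.mem_insert_self _ _) a4 ?_ hY.2.1 hXY.symm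
    intro h'
    have h : P (e2 X) = (P X + (P X ^ 2 + 1) / 5) * (P X + (P X ^ 2 + 1) / 5 - 1) := h'
    rw [a3] at h
    have h7 := P_ge hs hX
    have hb := five_dvd hX.2
    have h8 : (P X + 5) * P X = P X + (P X ^ 2 + 1) / 5 - 1 :=
      Nat.eq_of_mul_eq_mul_left (by omega) h
    have h9 : (P X + 5) * P X + 1 = P X + (P X ^ 2 + 1) / 5 := by omega
    nlinarith
  have hsub : e1 '' Sol (s + 1) ∪ e2 '' N s ⊆ Sol (s + 2) := by
    rintro Z (⟨Y, hY, rfl⟩ | ⟨X, hX, rfl⟩)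
    · exact e1_mem hY
    · exact (e2_facts hs hX).2.2.2.2
  have h4 := Set.ncard_le_ncard hsub (fin_Sol _)
  rw [Set.ncard_union_eq hdis ((fin_Sol _).image _) ((fin_N _).image _), h1, h2] at h4
  exact h4

theorem Omega_mono (s : ℕ) : Omega s ≤ Omega (s + 1) := by
  have h1 : (e1 '' Sol s).ncard = Omega s :=
    Set.InjOn.ncard_image (fun X hX Y hY h => e1_inj hX.2.1 hY.2.1 h)
  rw [← h1]
  apply Set.ncard_le_ncard _ (fin_Sol _)
  rintro Z ⟨Y, hY, rfl⟩
  exact e1_mem hY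

theorem e11_mem {s : ℕ} {X : Finset ℕ} (hX : X ∈ N s) : e1 (e1 X) ∈ N (s + 2) := by
  refine ⟨e1_mem (e1_mem hX.1), ?_⟩
  rw [P_e1 (gt_e1 hX.1.2.1), P_e1 hX.1.2.1]
  have h := hX.2
  obtain ⟨k, hk⟩ : ∃ k, P X = 5 * k + 2 := ⟨P X / 5, by omega⟩
  rw [hk]
  have : ((5 * k + 2 + 1) * (5 * k + 2) + 1) * ((5 * k + 2 + 1) * (5 * k + 2)) =
      5 * ((5 * k ^ 2 + 5 * k + 1) * (25 * k ^ 2 + 25 * k + 7) + (5 * k ^ 2 + 5 * k + 1)) + 2 := by ring
  omega

theorem N_mono (s : ℕ) : (N s).ncard ≤ (N (s + 2)).ncard := by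
  have h1 : ((fun X => e1 (e1 X)) '' N s).ncard = (N s).ncard :=
    Set.InjOn.ncard_image (fun X hX Y hY h =>
      e1_inj hX.1.2.1 hY.1.2.1 (e1_inj (gt_e1 hX.1.2.1) (gt_e1 hY.1.2.1) h))
  rw [← h1]
  apply Set.ncard_le_ncard _ (fin_N _)
  rintro Z ⟨Y, hY, rfl⟩
  exact e11_mem hY

theorem N_step {s : ℕ} {Z : Finset ℕ} (hZ : Z ∈ Sol (s + 1)) (hZ5 : (P Z + 1) * P Z % 5 = 2)
    (hne : ∀ Y : Finset ℕ, (∀ x ∈ Y, 1 < x) → e1 Y ≠ Z) : (N s).ncard + 1 ≤ (N (s + 2)).ncard := by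
  have h1 : ((fun X => e1 (e1 X)) '' N s).ncard = (N s).ncard :=
    Set.InjOn.ncard_image (fun X hX Y hY h =>
      e1_inj hX.1.2.1 hY.1.2.1 (e1_inj (gt_e1 hX.1.2.1) (gt_e1 hY.1.2.1) h))
  have hnot : e1 Z ∉ ((fun X => e1 (e1 X)) '' N s) := by
    rintro ⟨Y, hY, h⟩
    exact hne Y hY.1.2.1 (e1_inj (gt_e1 hY.1.2.1) hZ.2.1 h)
  rw [← h1, ← Set.ncard_insert_of_notMem hnot ((fin_N _).image _)]
  apply Set.ncard_le_ncard _ (fin_N _)
  intro W hW
  rcases Set.mem_insert_iff.1 hW with rfl | ⟨Y, hY, rfl⟩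
  · exact ⟨e1_mem hZ, by rw [P_e1 hZ.2.1]; exact hZ5⟩
  · exact e11_mem hY

/-- the three step extension with `a = 5` -/
theorem sigma {s : ℕ} {X : Finset ℕ} (hX : X ∈ Sol s) (hP : 42 ≤ P X) {u v y2 y3 : ℕ}
    (h2 : 5 * y2 = P X * (P X + 5) + u) (h3 : 5 * y3 = P X * (P X + 5) + v)
    (huv : u * v = (P X * (P X + 5)) ^ 2 + 5) (hu : 1 < u) (huv' : u < v) :
    ∃ Z ∈ Sol (s + 3), P Z = y3 * (y2 * ((P X + 5) * P X)) ∧
      ∀ Y : Finset ℕ, (∀ x ∈ Y, 1 < x) → e1 Y ≠ Z := by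
  have hn1 : P X + 5 ∉ X := notMem hX.2.1 (by omega)
  have hy2 : P X + 5 < y2 := by nlinarith
  have hy3 : y2 < y3 := by omega
  have hn2 : y2 ∉ insert (P X + 5) X := by
    intro h
    rcases Finset.mem_insert.1 h with h | h
    · omega
    · have := le_P hX.2.1 h; omega
  have hn3 : y3 ∉ insert y2 (insert (P X + 5) X) := by
    intro h
    rcases Finset.mem_insert.1 h with h | h
    · omega
    · rcases Finset.mem_insert.1 h with h | h
      · omega
      · have := le_P hX.2.1 h; omega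
  have hPZ : P (insert y3 (insert y2 (insert (P X + 5) X))) = y3 * (y2 * ((P X + 5) * P X)) := by
    rw [P_insert hn3, P_insert hn2, P_insert hn1]
  refine ⟨insert y3 (insert y2 (insert (P X + 5) X)), ⟨?_, ?_, ?_⟩, hPZ, ?_⟩
  · rw [Finset.card_insert_of_notMem hn3, Finset.card_insert_of_notMem hn2,
      Finset.card_insert_of_notMem hn1, hX.1]
  · intro z hz
    rcases Finset.mem_insert.1 hz with h | h
    · omega
    · rcases Finset.mem_insert.1 h with h | h
      · omega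
      · rcases Finset.mem_insert.1 h with h | h
        · omega
        · exact hX.2.1 z h
  · rw [castP, hPZ, Finset.sum_insert hn3, Finset.sum_insert hn2, Finset.sum_insert hn1, sum_e s hX]
    have h0 : (0 : ℚ) < P X := by exact_mod_cast P_pos hX.2.1
    have h02 : (0 : ℚ) < y2 := by exact_mod_cast (by omega : 0 < y2)
    have h03 : (0 : ℚ) < y3 := by exact_mod_cast (by omega : 0 < y3)
    have e2 : (5 : ℚ) * y2 = P X * (P X + 5) + u := by exact_mod_cast h2
    have e3 : (5 : ℚ) * y3 = P X * (P X + 5) + v := by exact_mod_cast h3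
    have euv : (u : ℚ) * v = (P X * (P X + 5)) ^ 2 + 5 := by exact_mod_cast huv
    have key : (P X : ℚ) * (P X + 5) * (y2 + y3) + 1 = 5 * y2 * y3 := by
      have hu' : (u : ℚ) = 5 * y2 - P X * (P X + 5) := by linarith
      have hv' : (v : ℚ) = 5 * y3 - P X * (P X + 5) := by linarith
      rw [hu', hv'] at euv
      nlinarith
    push_cast
    field_simp
    linear_combination key
  · intro Y hY
    refine not_e1 (m := y3) (Finset.mem_insert_self _ _) ?_ ?_ hY
    · intro z hz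
      rcases Finset.mem_insert.1 hz with h | h
      · omega
      · rcases Finset.mem_insert.1 h with h | h
        · omega
        · rcases Finset.mem_insert.1 h with h | h
          · omega
          · have := le_P hX.2.1 h; omega
    · rw [hPZ]
      intro h
      have h8 : y2 * ((P X + 5) * P X) = y3 - 1 := Nat.eq_of_mul_eq_mul_left (by omega) h
      have h9 : y2 * ((P X + 5) * P X) + 1 = y3 := by omega
      set Q := P X * (P X + 5) with hQ
      have h10 : (P X + 5) * P X = Q := by rw [hQ]; ring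
      rw [h10] at h9
      have h11 : (Q + u) * Q + 5 = Q + v := by
        rw [← h2, ← h3, ← h9]; ring
      have h12 : v ≤ Q ^ 2 + 5 := by nlinarith
      have h13 : 42 ≤ Q := by nlinarith
      nlinarith

/-- the three step extension with `a = 5` -/
theorem sigma' {s : ℕ} {X : Finset ℕ} (hX : X ∈ Sol s) (hP : 42 ≤ P X) {u v y2 y3 : ℕ}
    (h2 : 5 * y2 = P X * (P X + 5) + u) (h3 : 5 * y3 = P X * (P X + 5) + v)
    (huv : u * v = (P X * (P X + 5)) ^ 2 + 5) (hu : 1 < u) (huv' : u < v) :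
    insert y3 (insert y2 (insert (P X + 5) X)) ∈ Sol (s + 3) ∧
    P (insert y3 (insert y2 (insert (P X + 5) X))) = y3 * (y2 * ((P X + 5) * P X)) ∧
    (∀ Y : Finset ℕ, (∀ x ∈ Y, 1 < x) → e1 Y ≠ insert y3 (insert y2 (insert (P X + 5) X))) ∧
    (((insert y3 (insert y2 (insert (P X + 5) X))).erase y3).erase y2).erase (P X + 5) = X := by
  have hn1 : P X + 5 ∉ X := notMem hX.2.1 (by omega)
  have hy2 : P X + 5 < y2 := by nlinarith
  have hy3 : y2 < y3 := by omega
  have hn2 : y2 ∉ insert (P X + 5) X := by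
    intro h
    rcases Finset.mem_insert.1 h with h | h
    · omega
    · have := le_P hX.2.1 h; omega
  have hn3 : y3 ∉ insert y2 (insert (P X + 5) X) := by
    intro h
    rcases Finset.mem_insert.1 h with h | h
    · omega
    · rcases Finset.mem_insert.1 h with h | h
      · omega
      · have := le_P hX.2.1 h; omega
  have hPZ : P (insert y3 (insert y2 (insert (P X + 5) X))) = y3 * (y2 * ((P X + 5) * P X)) := by
    rw [P_insert hn3, P_insert hn2, P_insert hn1]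
  refine ⟨⟨?_, ?_, ?_⟩, hPZ, ?_, by rw [Finset.erase_insert hn3, Finset.erase_insert hn2, Finset.erase_insert hn1]⟩
  · rw [Finset.card_insert_of_notMem hn3, Finset.card_insert_of_notMem hn2,
      Finset.card_insert_of_notMem hn1, hX.1]
  · intro z hz
    rcases Finset.mem_insert.1 hz with h | h
    · omega
    · rcases Finset.mem_insert.1 h with h | h
      · omega
      · rcases Finset.mem_insert.1 h with h | h
        · omega
        · exact hX.2.1 z h
  · rw [castP, hPZ, Finset.sum_insert hn3, Finset.sum_insert hn2, Finset.sum_insert hn1, sum_e s hX]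
    have h0 : (0 : ℚ) < P X := by exact_mod_cast P_pos hX.2.1
    have h02 : (0 : ℚ) < y2 := by exact_mod_cast (by omega : 0 < y2)
    have h03 : (0 : ℚ) < y3 := by exact_mod_cast (by omega : 0 < y3)
    have e2 : (5 : ℚ) * y2 = P X * (P X + 5) + u := by exact_mod_cast h2
    have e3 : (5 : ℚ) * y3 = P X * (P X + 5) + v := by exact_mod_cast h3
    have euv : (u : ℚ) * v = (P X * (P X + 5)) ^ 2 + 5 := by exact_mod_cast huv
    have key : (P X : ℚ) * (P X + 5) * (y2 + y3) + 1 = 5 * y2 * y3 := by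
      have hu' : (u : ℚ) = 5 * y2 - P X * (P X + 5) := by linarith
      have hv' : (v : ℚ) = 5 * y3 - P X * (P X + 5) := by linarith
      rw [hu', hv'] at euv
      nlinarith
    push_cast
    field_simp
    linear_combination key
  · intro Y hY
    refine not_e1 (m := y3) (Finset.mem_insert_self _ _) ?_ ?_ hY
    · intro z hz
      rcases Finset.mem_insert.1 hz with h | h
      · omega
      · rcases Finset.mem_insert.1 h with h | h
        · omega
        · rcases Finset.mem_insert.1 h with h | h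
          · omega
          · have := le_P hX.2.1 h; omega
    · rw [hPZ]
      intro h
      have h8 : y2 * ((P X + 5) * P X) = y3 - 1 := Nat.eq_of_mul_eq_mul_left (by omega) h
      have h9 : y2 * ((P X + 5) * P X) + 1 = y3 := by omega
      set Q := P X * (P X + 5) with hQ
      have h10 : (P X + 5) * P X = Q := by rw [hQ]; ring
      rw [h10] at h9
      have h11 : (Q + u) * Q + 5 = Q + v := by
        rw [← h2, ← h3, ← h9]; ring
      have h12 : v ≤ Q ^ 2 + 5 := by nlinarith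
      have h13 : 42 ≤ Q := by nlinarith
      nlinarith

/-- the Sylvester chain -/
def B : ℕ → Finset ℕ
  | 0 => ∅
  | n + 1 => e1 (B n)

theorem B_mem (n : ℕ) : B n ∈ Sol n := by
  induction n with
  | zero => refine ⟨rfl, by simp [B], by simp [B]⟩
  | succ n ih => exact e1_mem ih

theorem P_B (n : ℕ) : P (B (n + 1)) = (P (B n) + 1) * P (B n) := P_e1 (B_mem n).2.1

theorem P_B_zero : P (B 0) = 1 := by simp [B, P]

theorem P_B_mod (M r n : ℕ) (h : P (B n) % M = r) : P (B (n + 1)) % M = ((r + 1) * r) % M := by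
  have h1 : P (B n) ≡ r [MOD M] := by
    rw [← h]; exact (Nat.mod_modEq _ _).symm
  rw [P_B]
  exact (h1.add_right 1).mul h1

theorem P_B3 : P (B 3) = 42 := by
  rw [P_B, P_B, P_B, P_B_zero]

theorem P_B2 : P (B 2) = 6 := by
  rw [P_B, P_B, P_B_zero]

theorem P_B_ge (n : ℕ) (hn : 3 ≤ n) : 42 ≤ P (B n) := by
  induction n, hn using Nat.le_induction with
  | base => rw [P_B3]
  | succ n hn ih => rw [P_B]; nlinarith

theorem mod1 (j : ℕ) : P (B (6 * j + 3)) % 1025 = 42 := by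
  induction j with
  | zero => rw [P_B3]
  | succ j ih =>
    have h1 := P_B_mod 1025 _ _ ih
    have h2 := P_B_mod 1025 _ _ h1
    have h3 := P_B_mod 1025 _ _ h2
    have h4 := P_B_mod 1025 _ _ h3
    have h5 := P_B_mod 1025 _ _ h4
    have h6 := P_B_mod 1025 _ _ h5
    rw [show 6 * (j + 1) + 3 = 6 * j + 3 + 1 + 1 + 1 + 1 + 1 + 1 by ring, h6]

theorem mod2 (j : ℕ) : P (B (6 * j + 2)) % 2225 = 6 := by
  induction j with
  | zero => rw [P_B2]
  | succ j ih =>
    have h1 := P_B_mod 2225 _ _ ih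
    have h2 := P_B_mod 2225 _ _ h1
    have h3 := P_B_mod 2225 _ _ h2
    have h4 := P_B_mod 2225 _ _ h3
    have h5 := P_B_mod 2225 _ _ h4
    have h6 := P_B_mod 2225 _ _ h5
    rw [show 6 * (j + 1) + 2 = 6 * j + 2 + 1 + 1 + 1 + 1 + 1 + 1 by ring, h6]

theorem lt_of {Q u v : ℕ} (hQ : 1974 ≤ Q) (huv : u * v = Q ^ 2 + 5) (hu : u ≤ 89) : u < v := by
  by_contra h
  push Not at h
  have h1 : u * v ≤ 89 * 89 := Nat.mul_le_mul hu (h.trans hu)
  nlinarith

theorem fam1 (j : ℕ) : (N (6 * j + 5)).ncard + 1 ≤ (N (6 * j + 5 + 2)).ncard := by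
  have hmod := mod1 j
  have hge := P_B_ge (6 * j + 3) (by omega)
  have hmem := B_mem (6 * j + 3)
  obtain ⟨k, hk⟩ : ∃ k, P (B (6 * j + 3)) = 1025 * k + 42 := ⟨P (B (6 * j + 3)) / 1025, by omega⟩
  have hv : 41 * (26922265625 * k ^ 4 + 4675281250 * k ^ 3 + 304143125 * k ^ 2 + 8784300 * k + 95041) =
      (P (B (6 * j + 3)) * (P (B (6 * j + 3)) + 5)) ^ 2 + 5 := by rw [hk]; ring
  have h2 : 5 * (210125 * k ^ 2 + 18245 * k + 403) =
      P (B (6 * j + 3)) * (P (B (6 * j + 3)) + 5) + 41 := by rw [hk]; ring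
  have h3 : 5 * (5384453125 * k ^ 4 + 935056250 * k ^ 3 + 61038750 * k ^ 2 + 1775105 * k + 19403) =
      P (B (6 * j + 3)) * (P (B (6 * j + 3)) + 5) +
      (26922265625 * k ^ 4 + 4675281250 * k ^ 3 + 304143125 * k ^ 2 + 8784300 * k + 95041) := by
    rw [hk]; ring
  have hQ : 1974 ≤ P (B (6 * j + 3)) * (P (B (6 * j + 3)) + 5) := by nlinarith
  obtain ⟨Z, hZ, hPZ, hne⟩ := sigma hmem hge h2 h3 hv (by norm_num) (lt_of hQ hv (by norm_num))
  refine N_step (Z := Z) hZ ?_ hne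
  have m1 : 5384453125 * k ^ 4 + 935056250 * k ^ 3 + 61038750 * k ^ 2 + 1775105 * k + 19403 ≡ 3
      [MOD 5] := by
    show _ % 5 = 3 % 5
    omega
  have m2 : 210125 * k ^ 2 + 18245 * k + 403 ≡ 3 [MOD 5] := by
    show _ % 5 = 3 % 5
    omega
  have m3 : P (B (6 * j + 3)) + 5 ≡ 2 [MOD 5] := by
    show _ % 5 = 2 % 5
    omega
  have m4 : P (B (6 * j + 3)) ≡ 2 [MOD 5] := by
    show _ % 5 = 2 % 5
    omega
  have m5 : P Z ≡ 3 * (3 * (2 * 2)) [MOD 5] := by
    rw [hPZ]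
    exact m1.mul (m2.mul (m3.mul m4))
  exact (m5.add_right 1).mul m5

theorem fam2 (j : ℕ) (hj : 1 ≤ j) : (N (6 * j + 4)).ncard + 1 ≤ (N (6 * j + 4 + 2)).ncard := by
  have hmod := mod2 j
  have hge := P_B_ge (6 * j + 2) (by omega)
  have hmem := B_mem (6 * j + 2)
  obtain ⟨k, hk⟩ : ∃ k, P (B (6 * j + 2)) = 2225 * k + 6 := ⟨P (B (6 * j + 2)) / 2225, by omega⟩
  have hv : 89 * (275378515625 * k ^ 4 + 4208031250 * k ^ 3 + 23418125 * k ^ 2 + 56100 * k + 49) =
      (P (B (6 * j + 2)) * (P (B (6 * j + 2)) + 5)) ^ 2 + 5 := by rw [hk]; ring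
  have h2 : 5 * (990125 * k ^ 2 + 7565 * k + 31) =
      P (B (6 * j + 2)) * (P (B (6 * j + 2)) + 5) + 89 := by rw [hk]; ring
  have h3 : 5 * (55075703125 * k ^ 4 + 841606250 * k ^ 3 + 5673750 * k ^ 2 + 18785 * k + 23) =
      P (B (6 * j + 2)) * (P (B (6 * j + 2)) + 5) +
      (275378515625 * k ^ 4 + 4208031250 * k ^ 3 + 23418125 * k ^ 2 + 56100 * k + 49) := by
    rw [hk]; ring
  have hQ : 1974 ≤ P (B (6 * j + 2)) * (P (B (6 * j + 2)) + 5) := by nlinarith
  obtain ⟨Z, hZ, hPZ, hne⟩ := sigma hmem hge h2 h3 hv (by norm_num) (lt_of hQ hv (by norm_num))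
  refine N_step (Z := Z) hZ ?_ hne
  have m1 : 55075703125 * k ^ 4 + 841606250 * k ^ 3 + 5673750 * k ^ 2 + 18785 * k + 23 ≡ 3
      [MOD 5] := by
    show _ % 5 = 3 % 5
    omega
  have m2 : 990125 * k ^ 2 + 7565 * k + 31 ≡ 1 [MOD 5] := by
    show _ % 5 = 1 % 5
    omega
  have m3 : P (B (6 * j + 2)) + 5 ≡ 1 [MOD 5] := by
    show _ % 5 = 1 % 5
    omega
  have m4 : P (B (6 * j + 2)) ≡ 1 [MOD 5] := by
    show _ % 5 = 1 % 5
    omega
  have m5 : P Z ≡ 3 * (1 * (1 * 1)) [MOD 5] := by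
    rw [hPZ]
    exact m1.mul (m2.mul (m3.mul m4))
  exact (m5.add_right 1).mul m5

theorem N_lower (m : ℕ) : m / 6 ≤ (N m).ncard + 1 := by
  induction m using Nat.twoStepInduction with
  | zero => omega
  | one => omega
  | more m ih _ =>
    have h := N_mono m
    by_cases c1 : (m + 2) % 6 = 0 ∧ 12 ≤ m + 2
    · obtain ⟨j, hj⟩ : ∃ j, m = 6 * j + 4 := ⟨m / 6, by omega⟩
      have h1 := fam2 j (by omega)
      rw [← hj] at h1
      omega
    · by_cases c2 : (m + 2) % 6 = 1 ∧ 7 ≤ m + 2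
      · obtain ⟨j, hj⟩ : ∃ j, m = 6 * j + 5 := ⟨m / 6, by omega⟩
        have h1 := fam1 j
        rw [← hj] at h1
        omega
      · omega

theorem growth (s : ℕ) : Omega s + (s - 1) / 6 ≤ Omega (s + 1) + 1 := by
  have h := Omega_mono s
  by_cases hs : s ≤ 2
  · have : (s - 1) / 6 = 0 := by omega
    omega
  · obtain ⟨m, rfl⟩ : ∃ m, s = m + 1 := ⟨s - 1, by omega⟩
    have h1 : Omega (m + 1) + (N m).ncard ≤ Omega (m + 1 + 1) := N_sub m (by omega)
    have h2 := N_lower m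
    show Omega (m + 1) + m / 6 ≤ Omega (m + 1 + 1) + 1
    omega


/-! ### exponential growth -/

def stp (M r : ℕ) : ℕ := r * (r + 1) % M

def it (M : ℕ) : ℕ → ℕ → ℕ
  | 0, r => r
  | n + 1, r => it M n (stp M r)

set_option maxRecDepth 100000 in
theorem c0 : it 198025 528 133506 = 133506 := by decide +kernel

set_option maxRecDepth 100000 in
theorem c1 : ∀ x < 89, it 17624225 528 (133506 + 198025 * x) =
    133506 + 198025 * ((x + 1) % 89) := by decide +kernel

set_option maxRecDepth 100000 in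
theorem c2 : it 198025 328 133506 = 41831 := by decide +kernel

set_option maxRecDepth 100000 in
theorem c3 : it 198025 416 1 = 133506 := by decide +kernel

theorem it_add (M a b r : ℕ) : it M (a + b) r = it M b (it M a r) := by
  induction a generalizing r with
  | zero => simp [it]
  | succ a ih => rw [show a + 1 + b = (a + b) + 1 by ring]; simp only [it]; exact ih _

theorem P_e1_mod {X : Finset ℕ} (hX : ∀ x ∈ X, 1 < x) (M : ℕ) :
    P (e1 X) % M = stp M (P X % M) := by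
  rw [P_e1 hX, stp, Nat.mul_comm]
  have h1 : P X % M ≡ P X [MOD M] := Nat.mod_modEq _ _
  exact (h1.symm.mul (h1.symm.add_right 1))

theorem en_gt {X : Finset ℕ} (hX : ∀ x ∈ X, 1 < x) (n : ℕ) : ∀ x ∈ e1^[n] X, 1 < x := by
  induction n with
  | zero => exact hX
  | succ n ih => rw [Function.iterate_succ_apply']; exact gt_e1 ih

theorem en_mod {X : Finset ℕ} (hX : ∀ x ∈ X, 1 < x) (M n : ℕ) :
    P (e1^[n] X) % M = it M n (P X % M) := by
  induction n generalizing X with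
  | zero => rfl
  | succ n ih =>
    rw [Function.iterate_succ_apply, ih (gt_e1 hX), P_e1_mod hX]
    rfl

theorem en_mem {s : ℕ} {X : Finset ℕ} (hX : X ∈ Sol s) (n : ℕ) : e1^[n] X ∈ Sol (s + n) := by
  induction n with
  | zero => exact hX
  | succ n ih => rw [Function.iterate_succ_apply']; exact e1_mem ih

theorem en_inj {X Y : Finset ℕ} (hX : ∀ x ∈ X, 1 < x) (hY : ∀ x ∈ Y, 1 < x) (n : ℕ)
    (h : e1^[n] X = e1^[n] Y) : X = Y := by
  induction n with
  | zero => exact h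
  | succ n ih =>
    rw [Function.iterate_succ_apply', Function.iterate_succ_apply'] at h
    exact ih (e1_inj (en_gt hX n) (en_gt hY n) h)

/-- the good solutions -/
def G (s : ℕ) : Set (Finset ℕ) :=
  {X | X ∈ Sol s ∧ ∃ j, P X % 198025 = it 198025 (2 * j) 133506}

theorem fin_G (s : ℕ) : (G s).Finite := (fin_Sol s).subset (fun _ h => h.1)

theorem G_even {s : ℕ} {X : Finset ℕ} (hX : X ∈ G s) (m : ℕ) : e1^[2 * m] X ∈ G (s + 2 * m) := by
  obtain ⟨h1, j, hj⟩ := hX
  refine ⟨en_mem h1 _, j + m, ?_⟩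
  rw [en_mod h1.2.1, hj, ← it_add]
  congr 1
  ring

theorem it_mul (k : ℕ) : it 198025 (528 * k) 133506 = 133506 := by
  induction k with
  | zero => rfl
  | succ k ih => rw [show 528 * (k + 1) = 528 * k + 528 by ring, it_add, ih, c0]

theorem it_mul3 (x k : ℕ) (hx : x < 89) : it 17624225 (528 * k) (133506 + 198025 * x) =
    133506 + 198025 * ((x + k) % 89) := by
  induction k with
  | zero => simp [it, Nat.mod_eq_of_lt hx]
  | succ k ih =>
    rw [show 528 * (k + 1) = 528 * k + 528 by ring, it_add, ih, c1 _ (Nat.mod_lt _ (by norm_num))]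
    congr 2
    omega

theorem steer {s : ℕ} {X : Finset ℕ} (hX : X ∈ G s) :
    ∃ m, m ≤ 23760 ∧ P (e1^[2 * m] X) % 17624225 = 133506 := by
  obtain ⟨h1, j, hj⟩ := hX
  have hj' : it 198025 (2 * j) 133506 = it 198025 (2 * (j % 264)) 133506 := by
    rw [show 2 * j = 528 * (j / 264) + 2 * (j % 264) by omega, it_add, it_mul]
  have hY : P (e1^[2 * (264 - j % 264)] X) % 198025 = 133506 := by
    rw [en_mod h1.2.1, hj, hj', ← it_add,
      show 2 * (j % 264) + 2 * (264 - j % 264) = 528 by omega, c0]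
  obtain ⟨x, hx, hx'⟩ : ∃ x, x < 89 ∧
      P (e1^[2 * (264 - j % 264)] X) % 17624225 = 133506 + 198025 * x := by
    refine ⟨P (e1^[2 * (264 - j % 264)] X) % 17624225 / 198025, ?_, ?_⟩ <;> omega
  refine ⟨(264 - j % 264) + 264 * (89 - x), by omega, ?_⟩
  rw [show 2 * ((264 - j % 264) + 264 * (89 - x)) = 528 * (89 - x) + 2 * (264 - j % 264) by ring,
    Function.iterate_add_apply, en_mod (en_gt h1.2.1 _), hx', it_mul3 _ _ hx]
  have : (x + (89 - x)) % 89 = 0 := by omega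
  rw [this]

def y2f (p : ℕ) : ℕ := (p * (p + 5) + 89) / 5
def y3f (p : ℕ) : ℕ := (p * (p + 5) + ((p * (p + 5)) ^ 2 + 5) / 89) / 5

def zm (X : Finset ℕ) : Finset ℕ := insert (y3f (P X)) (insert (y2f (P X)) (insert (P X + 5) X))

theorem zm_facts {s : ℕ} {Y : Finset ℕ} (hY : Y ∈ Sol s) (hmod : P Y % 17624225 = 133506) :
    zm Y ∈ Sol (s + 3) ∧ P (zm Y) = y3f (P Y) * (y2f (P Y) * ((P Y + 5) * P Y)) ∧
    (∀ W : Finset ℕ, (∀ x ∈ W, 1 < x) → e1 W ≠ zm Y) ∧
    (((zm Y).erase (y3f (P Y))).erase (y2f (P Y))).erase (P Y + 5) = Y ∧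
    e1 (e1 (zm Y)) ∈ G (s + 5) := by
  obtain ⟨k, hk⟩ : ∃ k, P Y = 17624225 * k + 133506 := ⟨P Y / 17624225, by omega⟩
  have hv : 89 * (1084051981940230601753515625 * k ^ 4 + 32848004160379767574281250 * k ^ 3 + 373249413486279725643125 * k ^ 2 + 1884980069905078043100 * k + 3569814581558616049) = (P Y * (P Y + 5)) ^ 2 + 5 := by rw [hk]; ring
  have h2 : 5 * (62122661370125 * k ^ 2 + 941193537365 * k + 3564903931) = P Y * (P Y + 5) + 89 := by rw [hk]; ring
  have h3 : 5 * (216810396388046120350703125 * k ^ 4 + 6569600832075953514856250 * k ^ 3 + 74649882759378606498750 * k ^ 2 + 376996014922209145985 * k + 713962919876627123) = P Y * (P Y + 5) + (1084051981940230601753515625 * k ^ 4 + 32848004160379767574281250 * k ^ 3 + 373249413486279725643125 * k ^ 2 + 1884980069905078043100 * k + 3569814581558616049) := by rw [hk]; ring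
  have hy2 : y2f (P Y) = 62122661370125 * k ^ 2 + 941193537365 * k + 3564903931 := by
    rw [y2f, ← h2]; exact Nat.mul_div_cancel_left _ (by norm_num)
  have hy3 : y3f (P Y) = 216810396388046120350703125 * k ^ 4 + 6569600832075953514856250 * k ^ 3 + 74649882759378606498750 * k ^ 2 + 376996014922209145985 * k + 713962919876627123 := by
    rw [y3f, ← hv, Nat.mul_div_cancel_left _ (by norm_num), ← h3]
    exact Nat.mul_div_cancel_left _ (by norm_num)
  have hP42 : 42 ≤ P Y := by omega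
  have hQ : 1974 ≤ P Y * (P Y + 5) := by nlinarith
  have hs := sigma' hY hP42 h2 h3 hv (by norm_num) (lt_of hQ hv (by norm_num))
  rw [← hy2, ← hy3] at hs
  obtain ⟨hZ, hPZ, hne, her⟩ := hs
  refine ⟨hZ, hPZ, hne, her, e1_mem (e1_mem hZ), 164, ?_⟩
  have m1 : y3f (P Y) ≡ 31533 [MOD 39605] := by
    rw [hy3]
    show _ % 39605 = 31533 % 39605
    omega
  have m2 : y2f (P Y) ≡ 18276 [MOD 39605] := by
    rw [hy2]
    show _ % 39605 = 18276 % 39605
    omega
  have m3 : P Y + 5 ≡ 133511 [MOD 39605] := by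
    show _ % 39605 = 133511 % 39605
    omega
  have m4 : P Y ≡ 133506 [MOD 39605] := by
    show _ % 39605 = 133506 % 39605
    omega
  have m5 : P (zm Y) ≡ 31533 * (18276 * (133511 * 133506)) [MOD 39605] := by
    rw [show P (zm Y) = y3f (P Y) * (y2f (P Y) * ((P Y + 5) * P Y)) from hPZ]
    exact m1.mul (m2.mul (m3.mul m4))
  have m6 : P (zm Y) % 39605 = 33348 := m5
  obtain ⟨z, hz⟩ : ∃ z, P (zm Y) = 39605 * z + 33348 := ⟨P (zm Y) / 39605, by omega⟩
  have hg : ∀ x ∈ zm Y, 1 < x := hZ.2.1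
  have w1 : P (e1 (zm Y)) = 39605 * (39605 * z ^ 2 + 66697 * z + 28080) + 14052 := by
    rw [P_e1 hg, hz]; ring
  have w2 : P (e1 (e1 (zm Y))) = 198025 * (7921 * (39605 * z ^ 2 + 66697 * z + 28080) ^ 2 +
      5621 * (39605 * z ^ 2 + 66697 * z + 28080) + 997) + 41831 := by
    rw [P_e1 (gt_e1 hg), w1]; ring
  rw [show 2 * 164 = 328 by norm_num, c2, w2]
  omega

theorem zm_inj {X Y : Finset ℕ} {s t : ℕ} (hX : X ∈ Sol s) (hY : Y ∈ Sol t)
    (hx : P X % 17624225 = 133506) (hy : P Y % 17624225 = 133506) (h : zm X = zm Y) : X = Y := by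
  have hmono : ∀ a b : ℕ, 1 ≤ a → a < b →
      y3f a * (y2f a * ((a + 5) * a)) < y3f b * (y2f b * ((b + 5) * b)) := by
    intro a b ha hab
    have q1 : a * (a + 5) ≤ b * (b + 5) := Nat.mul_le_mul hab.le (by omega)
    have q2 : y2f a ≤ y2f b := Nat.div_le_div_right (by omega)
    have q3 : (a * (a + 5)) ^ 2 ≤ (b * (b + 5)) ^ 2 := Nat.pow_le_pow_left q1 2
    have q4 : ((a * (a + 5)) ^ 2 + 5) / 89 ≤ ((b * (b + 5)) ^ 2 + 5) / 89 :=
      Nat.div_le_div_right (by omega)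
    have q5 : y3f a ≤ y3f b := Nat.div_le_div_right (by omega)
    have q6 : 6 ≤ a * (a + 5) := by nlinarith
    have q7 : 0 < y2f a := Nat.div_pos (by omega) (by norm_num)
    have q8 : 0 < y3f a := Nat.div_pos (by omega) (by norm_num)
    have q9 : (a + 5) * a < (b + 5) * b := Nat.mul_lt_mul'' (by omega) hab
    exact Nat.mul_lt_mul_of_le_of_lt q5 (Nat.mul_lt_mul_of_le_of_lt q2 q9 (lt_of_lt_of_le q7 q2))
      (lt_of_lt_of_le q8 q5)
  obtain ⟨-, a1, -, a2, -⟩ := zm_facts hX hx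
  obtain ⟨-, b1, -, b2, -⟩ := zm_facts hY hy
  have hP : P X = P Y := by
    rw [h, b1] at a1
    rcases lt_trichotomy (P X) (P Y) with h4 | h4 | h4
    · exact absurd a1.symm (hmono _ _ (by omega) h4).ne
    · exact h4
    · exact absurd a1 (hmono _ _ (by omega) h4).ne
  rw [← a2, h, hP, b2]

theorem G_mono (s : ℕ) : (G s).ncard ≤ (G (s + 2)).ncard := by
  have h1 : ((fun X => e1^[2 * 1] X) '' G s).ncard = (G s).ncard :=
    Set.InjOn.ncard_image (fun X hX Y hY h => en_inj hX.1.2.1 hY.1.2.1 _ h)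
  rw [← h1]
  apply Set.ncard_le_ncard _ (fin_G _)
  rintro Z ⟨Y, hY, rfl⟩
  exact G_even hY 1

theorem G_rec (s : ℕ) : (G (s + 1)).ncard + (G s).ncard ≤ (G (s + 47525)).ncard := by
  have hex : ∀ X ∈ G s, ∃ m, m ≤ 23760 ∧ P (e1^[2 * m] X) % 17624225 = 133506 :=
    fun X hX => steer hX
  choose! m hm1 hm2 using hex
  have h1 : ((fun X => e1^[2 * 23762] X) '' G (s + 1)).ncard = (G (s + 1)).ncard :=
    Set.InjOn.ncard_image (fun X hX Y hY h => en_inj hX.1.2.1 hY.1.2.1 _ h)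
  have hzm : ∀ X ∈ G s, zm (e1^[2 * m X] X) ∈ Sol (s + 2 * m X + 3) := fun X hX =>
    (zm_facts (en_mem hX.1 _) (hm2 X hX)).1
  have hrange : ∀ X ∈ G s, ∀ W : Finset ℕ, (∀ x ∈ W, 1 < x) → e1 W ≠ zm (e1^[2 * m X] X) :=
    fun X hX => (zm_facts (en_mem hX.1 _) (hm2 X hX)).2.2.1
  -- comparison of two iterates
  have hcmp : ∀ (a b : ℕ) (Z W : Finset ℕ), (∀ x ∈ Z, 1 < x) → (∀ x ∈ W, 1 < x) → a < b →
      (∀ V : Finset ℕ, (∀ x ∈ V, 1 < x) → e1 V ≠ Z) → e1^[a] Z ≠ e1^[b] W := by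
    intro a b Z W hZ hW hab hno h
    obtain ⟨d, rfl⟩ : ∃ d, b = a + (d + 1) := ⟨b - a - 1, by omega⟩
    rw [Function.iterate_add_apply] at h
    have h4 := en_inj hZ (en_gt hW _) a h
    rw [Function.iterate_succ_apply'] at h4
    exact hno _ (en_gt hW _) h4.symm
  have h2 : ((fun X => e1^[2 * (23760 - m X) + 2] (zm (e1^[2 * m X] X))) '' G s).ncard =
      (G s).ncard := by
    apply Set.InjOn.ncard_image
    intro X hX Y hY h
    have h' : e1^[2 * (23760 - m X) + 2] (zm (e1^[2 * m X] X)) =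
        e1^[2 * (23760 - m Y) + 2] (zm (e1^[2 * m Y] Y)) := h
    have hx := hm1 X hX
    have hy := hm1 Y hY
    rcases lt_trichotomy (m X) (m Y) with h4 | h4 | h4
    · exact absurd h'.symm (hcmp _ _ _ _ (hzm Y hY).2.1 (hzm X hX).2.1 (by omega) (hrange Y hY))
    · rw [h4] at h'
      have h5 := en_inj (by rw [← h4]; exact (hzm X hX).2.1) (hzm Y hY).2.1 _ h'
      rw [← h4] at h5
      have h6 := zm_inj (en_mem hX.1 _) (en_mem hY.1 (2 * m X)) (hm2 X hX)
        (by rw [h4]; exact hm2 Y hY) h5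
      exact en_inj hX.1.2.1 hY.1.2.1 _ h6
    · exact absurd h' (hcmp _ _ _ _ (hzm X hX).2.1 (hzm Y hY).2.1 (by omega) (hrange X hX))
  have hdis : Disjoint ((fun X => e1^[2 * 23762] X) '' G (s + 1))
      ((fun X => e1^[2 * (23760 - m X) + 2] (zm (e1^[2 * m X] X))) '' G s) := by
    rw [Set.disjoint_left]
    rintro Z ⟨Y, hY, rfl⟩ ⟨X, hX, hXY⟩
    exact hcmp _ _ _ _ (hzm X hX).2.1 hY.1.2.1 (by omega) (hrange X hX) hXY
  have hsub : ((fun X => e1^[2 * 23762] X) '' G (s + 1)) ∪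
      ((fun X => e1^[2 * (23760 - m X) + 2] (zm (e1^[2 * m X] X))) '' G s) ⊆ G (s + 47525) := by
    rintro Z (⟨Y, hY, rfl⟩ | ⟨X, hX, rfl⟩)
    · have := G_even hY 23762
      rwa [show s + 1 + 2 * 23762 = s + 47525 by ring] at this
    · have h5 := (zm_facts (en_mem hX.1 (2 * m X)) (hm2 X hX)).2.2.2.2
      have h6 := G_even h5 (23760 - m X)
      have hx := hm1 X hX
      rw [show s + 2 * m X + 5 + 2 * (23760 - m X) = s + 47525 by omega] at h6
      show e1^[2 * (23760 - m X) + 2] (zm (e1^[2 * m X] X)) ∈ G (s + 47525)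
      rw [Function.iterate_add_apply]
      exact h6
  have h4 := Set.ncard_le_ncard hsub (fin_G _)
  rw [Set.ncard_union_eq hdis ((fin_G _).image _) ((fin_G _).image _), h1, h2] at h4
  exact h4

theorem B_eq (n : ℕ) : B n = e1^[n] ∅ := by
  induction n with
  | zero => rfl
  | succ n ih => rw [Function.iterate_succ_apply', ← ih]; rfl

theorem G_base : 1 ≤ (G 416).ncard := by
  rw [Nat.succ_le_iff, Set.ncard_pos (fin_G _)]
  refine ⟨B 416, B_mem 416, 0, ?_⟩
  rw [B_eq, en_mod (by simp)]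
  have : P ∅ % 198025 = 1 := by simp [P]
  rw [this, c3]
  rfl

theorem G_even_ge (i : ℕ) : 1 ≤ (G (416 + 2 * i)).ncard := by
  induction i with
  | zero => exact G_base
  | succ i ih => exact ih.trans (G_mono _)

theorem G_ge_one (s : ℕ) (hs : 47941 ≤ s) : 1 ≤ (G s).ncard := by
  by_cases h : s % 2 = 0
  · obtain ⟨i, rfl⟩ : ∃ i, s = 416 + 2 * i := ⟨(s - 416) / 2, by omega⟩
    exact G_even_ge i
  · obtain ⟨i, rfl⟩ : ∃ i, s = 416 + 2 * i + 47525 := ⟨(s - 47941) / 2, by omega⟩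
    have h1 := G_rec (416 + 2 * i)
    have h2 := G_even_ge i
    omega

theorem G_exp (j : ℕ) : ∀ s, 47941 + 47525 * j ≤ s → 2 ^ j ≤ (G s).ncard := by
  induction j with
  | zero => intro s hs; simpa using G_ge_one s (by omega)
  | succ j ih =>
    intro s hs
    obtain ⟨t, rfl⟩ : ∃ t, s = t + 47525 := ⟨s - 47525, by omega⟩
    have h1 := G_rec t
    have h2 := ih t (by omega)
    have h3 := ih (t + 1) (by omega)
    rw [pow_succ]
    omega

theorem it5 (j : ℕ) : it 198025 (2 * j) 133506 % 5 = 1 := by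
  induction j with
  | zero => rfl
  | succ j ih =>
    rw [show 2 * (j + 1) = 2 * j + 2 by ring, it_add]
    set r := it 198025 (2 * j) 133506
    show stp 198025 (stp 198025 r) % 5 = 1
    have h1 : ∀ r : ℕ, stp 198025 r % 5 = (r * (r + 1)) % 5 := fun r =>
      Nat.mod_mod_of_dvd _ (by norm_num)
    have e : r ≡ 1 [MOD 5] := ih
    have h2 : stp 198025 r ≡ 2 [MOD 5] := by
      have := e.mul (e.add_right 1)
      exact (h1 r).trans this
    have := h2.mul (h2.add_right 1)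
    exact (h1 _).trans this

theorem G_N (s : ℕ) : (G s).ncard ≤ (N (s + 1)).ncard := by
  have h1 : (e1 '' G s).ncard = (G s).ncard :=
    Set.InjOn.ncard_image (fun X hX Y hY h => e1_inj hX.1.2.1 hY.1.2.1 h)
  rw [← h1]
  apply Set.ncard_le_ncard _ (fin_N _)
  rintro Z ⟨Y, ⟨hY, j, hj⟩, rfl⟩
  refine ⟨e1_mem hY, ?_⟩
  have h2 : P Y % 5 = 1 := by
    have h3 := it5 j
    rw [← hj] at h3
    omega
  rw [P_e1_mod hY.2.1, h2]
  rfl

theorem growth_exp (s : ℕ) (hs : 200000 ≤ s) : Omega s + 2 ^ (s / 200000) ≤ Omega (s + 1) := by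
  obtain ⟨m, rfl⟩ : ∃ m, s = m + 2 := ⟨s - 2, by omega⟩
  have h1 : Omega (m + 1 + 1) + (N (m + 1)).ncard ≤ Omega (m + 1 + 2) := N_sub (m + 1) (by omega)
  have h2 := G_N m
  have h3 := G_exp ((m + 2) / 200000) m (by omega)
  have h4 : Omega (m + 1 + 1) = Omega (m + 2) := rfl
  have h5 : Omega (m + 1 + 2) = Omega (m + 2 + 1) := rfl
  omega


/-! ### an upper bound for `Omega s` -/

/-- a finite set containing all solutions of `∑ 1/x + 1/(c ∏ x) = N/c` with `n` unknowns -/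
def A : ℕ → ℕ → Finset (Finset ℕ)
  | 0, _ => {∅}
  | n + 1, c => (Finset.Icc 1 ((n + 2) * c)).biUnion (fun m => (A n (c * m)).image (insert m))

theorem mem_A (n : ℕ) : ∀ (c K : ℕ) (X : Finset ℕ), 0 < c → X.card = n → (∀ x ∈ X, 0 < x) →
    ∑ x ∈ X, (1 : ℚ) / x + 1 / (c * ∏ x ∈ X, (x : ℚ)) = K / c → X ∈ A n c := by
  induction n with
  | zero =>
    intro c K X hc h1 h2 h3
    simp [A, Finset.card_eq_zero.1 h1]
  | succ n ih =>
    intro c K X hc h1 h2 h3
    have hne : X.Nonempty := by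
      rw [← Finset.card_pos]; omega
    set m := X.min' hne with hm
    have hmX : m ∈ X := Finset.min'_mem _ _
    have hm0 : 0 < m := h2 m hmX
    have hmq : (0 : ℚ) < m := by exact_mod_cast hm0
    have hcq : (0 : ℚ) < c := by exact_mod_cast hc
    have hle : ∀ x ∈ X, (1 : ℚ) / x ≤ 1 / m := by
      intro x hx
      apply one_div_le_one_div_of_le hmq
      exact_mod_cast Finset.min'_le _ _ hx
    have hprod : (m : ℚ) ≤ c * ∏ x ∈ X, (x : ℚ) := by
      have h4 : m ≤ c * ∏ x ∈ X, x := by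
        have h5 : m ≤ ∏ x ∈ X, x := Nat.le_of_dvd (Finset.prod_pos h2) (Finset.dvd_prod_of_mem _ hmX)
        nlinarith
      have : ((m : ℕ) : ℚ) ≤ ((c * ∏ x ∈ X, x : ℕ) : ℚ) := by exact_mod_cast h4
      simpa using this
    have hs : ∑ x ∈ X, (1 : ℚ) / x ≤ (n + 1 : ℕ) * (1 / (m : ℚ)) := by
      have := Finset.sum_le_card_nsmul X (fun x : ℕ => (1 : ℚ) / x) _ hle
      rw [h1] at this
      simpa using this
    have hl : 1 / (c * ∏ x ∈ X, (x : ℚ)) ≤ 1 / (m : ℚ) := one_div_le_one_div_of_le hmq hprod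
    have hr : (K : ℚ) / c ≤ (n + 2) / m := by
      rw [← h3]
      have : ((n : ℚ) + 2) / m = (n + 1 : ℕ) * (1 / (m : ℚ)) + 1 / m := by
        push_cast; ring
      rw [this]; linarith
    have h6 : ∑ x ∈ X, (1 : ℚ) / x = 1 / m + ∑ x ∈ X.erase m, (1 : ℚ) / x :=
      (Finset.add_sum_erase X (fun x : ℕ => (1 : ℚ) / x) hmX).symm
    have h7 : ∏ x ∈ X, (x : ℚ) = m * ∏ x ∈ X.erase m, (x : ℚ) :=
      (Finset.mul_prod_erase X (fun x : ℕ => (x : ℚ)) hmX).symm
    have hgt : 1 / (m : ℚ) < K / c := by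
      rw [← h3, h6]
      have h4 : 0 < 1 / (c * ∏ x ∈ X, (x : ℚ)) := by
        apply one_div_pos.2
        exact lt_of_lt_of_le hmq hprod
      have h5 : 0 ≤ ∑ x ∈ X.erase m, (1 : ℚ) / x := Finset.sum_nonneg (fun x _ => by positivity)
      linarith
    have hKm : c < K * m := by
      rw [div_lt_div_iff₀ hmq hcq] at hgt
      have : ((c : ℕ) : ℚ) < ((K * m : ℕ) : ℚ) := by push_cast; linarith
      exact_mod_cast this
    have hK : 1 ≤ K := by
      rcases Nat.eq_zero_or_pos K with h | h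
      · rw [h] at hKm; omega
      · exact h
    have hmle : m ≤ (n + 2) * c := by
      rw [div_le_div_iff₀ hcq hmq] at hr
      have h8 : (K * m : ℕ) ≤ (n + 2) * c := by
        have : ((K * m : ℕ) : ℚ) ≤ (((n + 2) * c : ℕ) : ℚ) := by push_cast; linarith
        exact_mod_cast this
      nlinarith
    rw [A, Finset.mem_biUnion]
    refine ⟨m, Finset.mem_Icc.2 ⟨hm0, hmle⟩, Finset.mem_image.2 ⟨X.erase m, ?_,
      Finset.insert_erase hmX⟩⟩
    refine ih (c * m) (K * m - c) (X.erase m) (Nat.mul_pos hc hm0)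
      (by rw [Finset.card_erase_of_mem hmX, h1]; rfl)
      (fun x hx => h2 x (Finset.mem_of_mem_erase hx)) ?_
    rw [h6, h7] at h3
    push_cast [Nat.cast_sub hKm.le]
    rw [show ((c : ℚ) * m * ∏ x ∈ X.erase m, (x : ℚ)) = c * (m * ∏ x ∈ X.erase m, (x : ℚ)) by ring]
    have h9 : ((K : ℚ) * m - c) / (c * m) = K / c - 1 / m := by
      field_simp
    rw [h9]
    linarith

theorem card_A (M n : ℕ) : ∀ c : ℕ, n ≤ M → (A n c).card ≤ ((M + 1) * c) ^ (2 ^ n - 1) := by
  induction n with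
  | zero => intro c _; simp [A]
  | succ n ih =>
    intro c hn
    rw [A]
    refine Finset.card_biUnion_le.trans ?_
    have h1 : ∀ m ∈ Finset.Icc 1 ((n + 2) * c), ((A n (c * m)).image (insert m)).card ≤
        (((M + 1) * c) * ((M + 1) * c)) ^ (2 ^ n - 1) := by
      intro m hm
      refine Finset.card_image_le.trans ((ih (c * m) (by omega)).trans ?_)
      apply Nat.pow_le_pow_left
      have h2 := (Finset.mem_Icc.1 hm).2
      have h3 : m ≤ (M + 1) * c := h2.trans (Nat.mul_le_mul_right _ (by omega))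
      calc (M + 1) * (c * m) = ((M + 1) * c) * m := by ring
        _ ≤ ((M + 1) * c) * ((M + 1) * c) := Nat.mul_le_mul_left _ h3
    refine (Finset.sum_le_card_nsmul _ _ _ h1).trans ?_
    rw [Nat.card_Icc, smul_eq_mul]
    have h4 : (n + 2) * c + 1 - 1 ≤ (M + 1) * c := by
      have := Nat.mul_le_mul_right c (show n + 2 ≤ M + 1 by omega)
      omega
    refine (Nat.mul_le_mul_right _ h4).trans ?_
    have h5 : 1 ≤ 2 ^ n := Nat.one_le_two_pow
    have h6 : 2 ^ (n + 1) - 1 = 1 + ((2 ^ n - 1) + (2 ^ n - 1)) := by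
      rw [pow_succ]; omega
    rw [h6, pow_add, pow_one, mul_pow, ← pow_add]

theorem Omega_le (s : ℕ) : Omega s ≤ (s + 1) ^ (2 ^ s - 1) := by
  have h1 : Sol s ⊆ ↑(A s 1) := by
    rintro X ⟨h1, h2, h3⟩
    refine Finset.mem_coe.2 (mem_A s 1 1 X one_pos h1 (fun x hx => by have := h2 x hx; omega) ?_)
    simpa using h3
  have h2 := Set.ncard_le_ncard h1 (Finset.finite_toSet _)
  rw [Set.ncard_coe_finset] at h2
  have h3 := card_A s s 1 le_rfl
  rw [mul_one] at h3
  exact h2.trans h3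

theorem Omega_add_le (s : ℕ) : Omega s + s ≤ 2 ^ (s * 2 ^ s + 1) := by
  have h1 := Omega_le s
  have h2 : s + 1 ≤ 2 ^ s := Nat.lt_two_pow_self
  have h3 : (s + 1) ^ (2 ^ s - 1) ≤ 2 ^ (s * 2 ^ s) := by
    calc (s + 1) ^ (2 ^ s - 1) ≤ (2 ^ s) ^ (2 ^ s - 1) := Nat.pow_le_pow_left h2 _
      _ = 2 ^ (s * (2 ^ s - 1)) := by rw [← pow_mul]
      _ ≤ 2 ^ (s * 2 ^ s) := Nat.pow_le_pow_right (by norm_num) (Nat.mul_le_mul_left _ (Nat.sub_le _ _))
  have h4 : s ≤ 2 ^ (s * 2 ^ s) := by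
    have h5 : s ≤ s * 2 ^ s := Nat.le_mul_of_pos_right _ (Nat.two_pow_pos s)
    exact (show s ≤ 2 ^ s by omega).trans (Nat.pow_le_pow_right (by norm_num) h5)
  rw [pow_succ]
  omega

/-- every `Sol s` is finite; the differences `Omega (s+1) - Omega s` grow exponentially, and so the
inequality of the problem holds as soon as `200000 ≤ t` and `Omega s + s ≤ 2 ^ ((s + t) / 200000)`,
in particular for all `s` and all `t ≥ 200000 (s 2^s + 1)` -/
theorem result : (∀ s : ℕ, (Sol s).Finite) ∧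
    (∀ s : ℕ, 200000 ≤ s → Omega s + 2 ^ (s / 200000) ≤ Omega (s + 1)) ∧
    (∀ s t : ℕ, 200000 ≤ t → Omega s + s ≤ 2 ^ ((s + t) / 200000) →
      Omega (s + t) + Omega s + s ≤ Omega (s + t + 1)) ∧
    ∀ s t : ℕ, 200000 * (s * 2 ^ s + 1) ≤ t →
      Omega (s + t) + Omega s + s ≤ Omega (s + t + 1) := by
  refine ⟨fin_Sol, growth_exp, fun s t ht h => ?_, fun s t ht => ?_⟩
  · have h1 := growth_exp (s + t) (by omega)
    omega
  · have h0 : 200000 ≤ t := by
      have : 1 ≤ s * 2 ^ s + 1 := Nat.le_add_left _ _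
      omega
    have h1 := growth_exp (s + t) (by omega)
    have h2 := Omega_add_le s
    have h3 : s * 2 ^ s + 1 ≤ (s + t) / 200000 := by
      rw [Nat.le_div_iff_mul_le (by norm_num)]
      omega
    have h4 : 2 ^ (s * 2 ^ s + 1) ≤ 2 ^ ((s + t) / 200000) := Nat.pow_le_pow_right (by norm_num) h3
    omega

end Pool.Agent.Results.MP_27067c_nt.ExponentialDifferences
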